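import Pool.Agent.MWPC.Fin0
import Pool.Agent.Helper70_MWR.K0

/-!
# The beta world for period `n`: two letter words with the same patterns and residues are equal
-/

set_option autoImplicit false

namespace Pool.Agent.Helper71_MWR

open Pool.Agent.Helper14_MV Pool.Agent.Helper2_MV Pool.Agent.MWF Pool.Agent.MWP
open Pool.Agent.Helper44_MVT Pool.Agent.Helper70_MWR
open Pool.Agent.MWPN (Mul)
open Pool.Agent.MWPN.C (Two Chw)

section alg

variable {M : Type*} [Monoid M] {n : ℕ}

theorem evr (g : ℕ → M) (k c : ℕ) : ev g (List.replicate k c) = g c ^ k := by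
  simp [ev]

/-- `Z w = Z a^p b^q` -/
theorem zword (H : Wd n M) (g : ℕ → M) {c d : ℕ} (hcd : c ≠ d) :
    ∀ u : List ℕ, (∀ x ∈ u, x = c ∨ x = d) →
      (g c * g d) ^ (2 * n) * ev g u = (g c * g d) ^ (2 * n) * (g c ^ u.count c * g d ^ u.count d) := by
  intro u
  induction u with
  | nil => intro _; simp [ev_nil]
  | cons x u ih =>
    intro h
    have ih' := ih (fun y hy => h y (List.mem_cons_of_mem _ hy))
    rcases h x List.mem_cons_self with rfl | rfl
    · rw [ev_cons, List.count_cons_self, List.count_cons_of_ne hcd, ← mul_assoc, ← H.zc,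
        mul_assoc, ih', ← mul_assoc, H.zc, mul_assoc, pow_succ']
      simp only [mul_assoc]
    · rw [ev_cons, List.count_cons_self, List.count_cons_of_ne hcd.symm, ← mul_assoc, ← H.zc',
        mul_assoc, ih', ← mul_assoc, H.zc', mul_assoc]
      -- `Z b a^p b^q = Z a^p b^(q+1)`
      have hz := H.zabm (g x) (g c) (u.count c)
      rw [H.zsymm (g x) (g c)] at hz
      calc (g c * g x) ^ (2 * n) * (g x * (g c ^ u.count c * g x ^ u.count x))
          = (g c * g x) ^ (2 * n) * (g x * g c ^ u.count c) * g x ^ u.count x := by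
            simp only [mul_assoc]
        _ = (g c * g x) ^ (2 * n) * (g c ^ u.count c * g x) * g x ^ u.count x := by rw [hz]
        _ = _ := by rw [pow_succ']; simp only [mul_assoc]

theorem cr {x y : ℕ} (h : x ≠ y) (k : ℕ) : (List.replicate k x).count y = 0 := by
  rw [List.count_eq_zero]
  exact fun h' => h (List.eq_of_mem_replicate h').symm

theorem split_at {c d : ℕ} : ∀ u : List ℕ, (∀ x ∈ u, x = c ∨ x = d) → d ∈ u →
    ∃ i t, u = List.replicate i c ++ d :: t := by
  intro u
  induction u with
  | nil => intro _ h; simp at h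
  | cons x u ih =>
    intro h hd
    by_cases hx : x = d
    · subst hx
      exact ⟨0, u, rfl⟩
    · have hxc : x = c := (h x List.mem_cons_self).resolve_right hx
      have hdu : d ∈ u := by
        rcases List.mem_cons.1 hd with h1 | h1
        · exact absurd h1.symm hx
        · exact h1
      obtain ⟨i, t, ht⟩ := ih (fun y hy => h y (List.mem_cons_of_mem _ hy)) hdu
      refine ⟨i + 1, t, ?_⟩
      rw [hxc, ht, List.replicate_succ, List.cons_append]

/-- a letter which comes again absorbs its idempotent power -/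
theorem absorb (H : Wd n M) (g : ℕ → M) {d : ℕ} {t : List ℕ} (hd : d ∈ t) :
    g d ^ (2 * n) * (g d * ev g t) = g d * ev g t := by
  obtain ⟨t1, t2, rfl⟩ := List.append_of_mem hd
  rw [ev_append, ev_cons]
  have h := H.ebe (g d) (ev g t1)
  calc g d ^ (2 * n) * (g d * (ev g t1 * (g d * ev g t2)))
      = g d ^ (2 * n) * (g d * ev g t1 * g d) * ev g t2 := by simp only [mul_assoc]
    _ = g d * ev g t1 * g d * ev g t2 := by rw [h]
    _ = _ := by simp only [mul_assoc]

/-- the value of a word which begins with `c` and has both patterns -/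
theorem val0 (H : Wd n M)
    (K0 : ∀ a b : M, ∀ m, 2 ≤ m → a * b ^ m * a = (a * b) ^ (2 * n) * a ^ 2 * b ^ m)
    (g : ℕ → M) {c d : ℕ} (hcd : c ≠ d) {u : List ℕ} (hu : ∀ x ∈ u, x = c ∨ x = d)
    (hh : u.head? = some c) (h1 : [d, c].Sublist u) (h2 : [d, d].Sublist u) :
    ev g u = (g c * g d) ^ (2 * n) * (g c ^ u.count c * g d ^ u.count d) := by
  have hn := H.pos
  have hq : 2 ≤ u.count d := by
    have := h2.count_le d
    simpa using this
  obtain ⟨i, t, ht⟩ := split_at (c := c) (d := d) u hu (pair_mem h1).1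
  have hdr : ¬ d ∈ List.replicate i c := fun h => hcd (List.eq_of_mem_replicate h).symm
  have hct : c ∈ t := by
    rw [ht, pair_append] at h1
    rcases h1 with h | ⟨h, _⟩ | h
    · exact absurd (pair_mem h).1 hdr
    · exact absurd h hdr
    · rcases pair_cons.1 h with ⟨_, h⟩ | h
      · exact h
      · exact (pair_mem h).2
  have hdt : d ∈ t := by
    rw [ht, pair_append] at h2
    rcases h2 with h | ⟨h, _⟩ | h
    · exact absurd (pair_mem h).1 hdr
    · exact absurd h hdr
    · rcases pair_cons.1 h with ⟨_, h⟩ | h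
      · exact h
      · exact (pair_mem h).2
  have hi : i ≠ 0 := by
    rintro rfl
    rw [ht] at hh
    simp at hh
    exact hcd hh.symm
  obtain ⟨j, rfl⟩ := Nat.exists_eq_succ_of_ne_zero hi
  have htu : ∀ x ∈ t, x = d ∨ x = c := by
    intro x hx
    refine (hu x ?_).symm
    rw [ht]
    exact List.mem_append_right _ (List.mem_cons_of_mem _ hx)
  obtain ⟨k, t', ht'⟩ := split_at (c := d) (d := c) t htu hct
  have htu' : ∀ x ∈ t', x = c ∨ x = d := by
    intro x hx
    refine (htu x ?_).symm
    rw [ht']
    exact List.mem_append_right _ (List.mem_cons_of_mem _ hx)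
  have e1 : ev g u = g c ^ (j + 1) * (g d * ev g t) := by
    rw [ht, ev_append, evr, ev_cons]
  have e2 : ev g t = g d ^ k * (g c * ev g t') := by
    rw [ht', ev_append, evr, ev_cons]
  have cnt1 : u.count c = j + 2 + t'.count c := by
    rw [ht, ht']
    simp only [List.count_append, List.count_cons_self, List.count_replicate_self,
      List.count_cons_of_ne hcd.symm, cr hcd.symm]
    omega
  have cnt2 : u.count d = 1 + k + t'.count d := by
    rw [ht, ht']
    simp only [List.count_append, List.count_cons_self, List.count_replicate_self,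
      List.count_cons_of_ne hcd, cr hcd]
    omega
  have e3 : g d * ev g t = g d ^ (2 * n + 1 + k) * (g c * ev g t') := by
    rw [← absorb H g hdt, e2]
    rw [pow_add, pow_succ]
    simp only [mul_assoc]
  have e4 : ev g u = (g c * g d) ^ (2 * n) *
      (g c ^ (j + 2) * g d ^ (2 * n + 1 + k) * ev g t') := by
    calc ev g u = g c ^ (j + 1) * (g d ^ (2 * n + 1 + k) * (g c * ev g t')) := by rw [e1, e3]
      _ = g c ^ j * (g c * g d ^ (2 * n + 1 + k) * g c) * ev g t' := by
          rw [pow_succ]; simp only [mul_assoc]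
      _ = g c ^ j * ((g c * g d) ^ (2 * n) * g c ^ 2 * g d ^ (2 * n + 1 + k)) * ev g t' := by
          rw [K0 (g c) (g d) _ (by omega)]
      _ = (g c ^ j * (g c * g d) ^ (2 * n)) * g c ^ 2 * g d ^ (2 * n + 1 + k) * ev g t' := by
          simp only [mul_assoc]
      _ = ((g c * g d) ^ (2 * n) * g c ^ j) * g c ^ 2 * g d ^ (2 * n + 1 + k) * ev g t' := by
          rw [H.zcp]
      _ = _ := by rw [pow_add (g c) j 2]; simp only [mul_assoc]
  have e5 : ev g u = (g c * g d) ^ (2 * n) *
      ev g (List.replicate (j + 2) c ++ List.replicate (2 * n + 1 + k) d ++ t') := by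
    rw [e4, ev_append, ev_append, evr, evr]
  rw [e5, zword H g hcd]
  · have c1 : (List.replicate (j + 2) c ++ List.replicate (2 * n + 1 + k) d ++ t').count c =
        u.count c := by
      rw [cnt1, List.count_append, List.count_append, List.count_replicate_self, cr hcd.symm]
    have c2 : (List.replicate (j + 2) c ++ List.replicate (2 * n + 1 + k) d ++ t').count d =
        u.count d + n * 2 := by
      rw [cnt2, List.count_append, List.count_append, List.count_replicate_self, cr hcd]
      omega
    rw [c1, c2, H.perk (g d) hq]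
  · intro x hx
    rcases List.mem_append.1 hx with h | h
    · rcases List.mem_append.1 h with h | h
      · exact Or.inl (List.eq_of_mem_replicate h)
      · exact Or.inr (List.eq_of_mem_replicate h)
    · exact htu' x h

/-- the value of a two letter word with both patterns -/
theorem val (H : Wd n M)
    (K0 : ∀ a b : M, ∀ m, 2 ≤ m → a * b ^ m * a = (a * b) ^ (2 * n) * a ^ 2 * b ^ m)
    (g : ℕ → M) {u : List ℕ} (hu : Two u) (hm : Mul u) (h1 : [0, 1].Sublist u)
    (h2 : [1, 0].Sublist u) :
    ev g u = (g 0 * g 1) ^ (2 * n) * (g 0 ^ u.count 0 * g 1 ^ u.count 1) := by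
  have m0 := hm 0 (pair_mem h1).1
  have m1 := hm 1 (pair_mem h1).2
  rcases hd : u.head? with _ | x
  · rw [List.head?_eq_none_iff] at hd
    subst hd
    simp at h1
  · have hx : x ∈ u := List.mem_of_mem_head? (by rw [hd]; rfl)
    rcases hu x hx with rfl | rfl
    · exact val0 H K0 g (by decide) hu hd h2 m1
    · rw [val0 H K0 g (c := 1) (d := 0) (by decide) (fun y hy => (hu y hy).symm) hd h1 m0,
        H.zsymm (g 1) (g 0)]
      -- `Z b^q a^p = Z a^p b^q`
      have hz := zword H g (c := 0) (d := 1) (by decide)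
        (List.replicate (u.count 1) 1 ++ List.replicate (u.count 0) 0)
        (by
          intro y hy
          rcases List.mem_append.1 hy with h | h
          · exact Or.inr (List.eq_of_mem_replicate h)
          · exact Or.inl (List.eq_of_mem_replicate h))
      rw [ev_append, evr, evr] at hz
      rw [hz, List.count_append, List.count_append, List.count_replicate_self,
        List.count_replicate_self, List.count_replicate, List.count_replicate,
        if_neg (by decide), if_neg (by decide), Nat.zero_add, Nat.add_zero]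

end alg

/-- two letter words with the same patterns and residues are equal -/
theorem loc2 {n : ℕ} {β : FIC} (H : Wd n (MM β))
    (K0 : ∀ a b : MM β, ∀ m, 2 ≤ m → a * b ^ m * a = (a * b) ^ (2 * n) * a ^ 2 * b ^ m) :
    ∀ u v : List ℕ, Two u → Mul u → Mul v → (∀ a, a ∈ u ↔ a ∈ v) →
      (∀ a, u.count a ≡ v.count a [MOD n]) →
        (∀ a b, a ≠ b → ([a, b].Sublist u ↔ [a, b].Sublist v)) → RR β u v := by
  intro u v hu hMu hMv hm hc hp
  have hv : Two v := fun a ha => hu a ((hm a).2 ha)
  by_cases hb : [0, 1].Sublist u ∧ [1, 0].Sublist u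
  · obtain ⟨h1, h2⟩ := hb
    have h3 := (hp 0 1 (by decide)).1 h1
    have h4 := (hp 1 0 (by decide)).1 h2
    have two : ∀ (w : List ℕ) (c : ℕ), [c, c].Sublist w → 2 ≤ w.count c := by
      intro w c h
      have := h.count_le c
      simpa using this
    have m0u := two u 0 (hMu 0 (pair_mem h1).1)
    have m1u := two u 1 (hMu 1 (pair_mem h1).2)
    have m0v := two v 0 (hMv 0 (pair_mem h3).1)
    have m1v := two v 1 (hMv 1 (pair_mem h3).2)
    rw [rr_iff, val H K0 (cn β) hu hMu h1 h2, val H K0 (cn β) hv hMv h3 h4,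
      H.pw (cn β 0) m0u m0v (hc 0), H.pw (cn β 1) m1u m1v (hc 1)]
  · have hch : Chw u := by
      intro a b hab h1 h2
      apply hb
      have ha := hu a (pair_mem h1).1
      have hb' := hu b (pair_mem h1).2
      rcases ha with rfl | rfl
      · rcases hb' with rfl | rfl
        · exact absurd rfl hab
        · exact ⟨h1, h2⟩
      · rcases hb' with rfl | rfl
        · exact ⟨h2, h1⟩
        · exact absurd rfl hab
    have hper : RR β [0, 0] (List.replicate (n + 2) 0) := by
      rw [rr_iff, evr, ← H.per]
      simp [ev, pow_two]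
    exact Pool.Agent.MWPN.C.chw_loc hper u.length u v le_rfl hch hMu hMv hm hc hp

open Pool.Agent.MWPN (ip) in
/-- the residue form of `D_v` for chain words `v` -/
theorem dv {n : ℕ} {β : FIC} (H : Hy n β)
    (ex : ∀ p q : ℕ, RR β (List.replicate p 0) (List.replicate q 0) →
      p = q ∨ (2 ≤ p ∧ 2 ≤ q ∧ p ≡ q [MOD n]))
    (e0 : ¬ RR β (ip n 0 ++ ip n 1 ++ 2 :: ip n 0) (ip n 0 ++ ip n 1 ++ ip n 0 ++ 2 :: ip n 0)) :
    ∀ v : List ℕ, Mul v → Chw v → Pool.Agent.MWPN.DV β v :=
  Pool.Agent.MWPN.C.fin n β
    (Pool.Agent.MWPN.C.btC H.pos H.per ex H.bet (loc2 H.wd (k0 H)) e0) H.hm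

end Pool.Agent.Helper71_MWR
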